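import Pool.Agent.MP_411355_ag.Mg.Schemes

open AlgebraicGeometry CategoryTheory Pool.Agent.MP_411355_ag

universe u

namespace Pool.Agent.Results.MP_411355_ag.Disconnected

/-- Over every field `k`, grade `k[x₁,x₂,x₃]` by `A = ℤ` with `deg x₁ = 3`, `deg x₂ = 4`,
`deg x₃ = 5`, and let `h` be the indicator function of `{0,3,4,5,6,8,9,10,12,13}`.  Then the
multigraded Hilbert functor is represented by a `k`-scheme, and every `k`-scheme representing it is
nonempty and not connected. -/
theorem result (k : Type u) [Field k] :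
    (∃ (H : Scheme.{u}) (π : H ⟶ Spec (CommRingCat.of k)),
      IsMultigradedHilbertScheme k (![3, 4, 5] : Fin 3 → ℤ)
        (fun a => if a ∈ ({0, 3, 4, 5, 6, 8, 9, 10, 12, 13} : Finset ℤ) then 1 else 0) H π) ∧
    ∀ (H : Scheme.{u}) (π : H ⟶ Spec (CommRingCat.of k)),
      IsMultigradedHilbertScheme k (![3, 4, 5] : Fin 3 → ℤ)
        (fun a => if a ∈ ({0, 3, 4, 5, 6, 8, 9, 10, 12, 13} : Finset ℤ) then 1 else 0) H π →
      Nonempty H ∧ ¬ ConnectedSpace H :=
  ⟨⟨_, _, exists_hilb k⟩, not_connected k⟩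

end Pool.Agent.Results.MP_411355_ag.Disconnected
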